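import Mathlib

namespace Pool.Agent.P.MP_48c50a_an

open Finset PowerSeries

/-- truncated weighted `ℓ¹` sum of the coefficients -/
noncomputable def S (w : ℕ → ℝ) (n : ℕ) (h : ℂ⟦X⟧) : ℝ := ∑ k ∈ range n, ‖coeff k h‖ * w k

/-- the weighted `ℓ¹` norm is at most `B` -/
def Bd (w : ℕ → ℝ) (h : ℂ⟦X⟧) (B : ℝ) : Prop := ∀ n, S w n h ≤ B

/-- geometric weight -/
noncomputable def ge (ρ : ℝ) : ℕ → ℝ := fun k => ρ ^ k

lemma S_nonneg {w : ℕ → ℝ} (hw : ∀ k, 0 ≤ w k) (n : ℕ) (h : ℂ⟦X⟧) : 0 ≤ S w n h :=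
  sum_nonneg fun k _ => mul_nonneg (norm_nonneg _) (hw k)

lemma Bd.nonneg {w : ℕ → ℝ} {h : ℂ⟦X⟧} {B : ℝ} (hb : Bd w h B) : 0 ≤ B := by
  simpa [S] using hb 0

lemma Bd.mono {w : ℕ → ℝ} {h : ℂ⟦X⟧} {B B' : ℝ} (hb : Bd w h B) (hB : B ≤ B') : Bd w h B' :=
  fun n => (hb n).trans hB

lemma Bd.weight {w w' : ℕ → ℝ} {h : ℂ⟦X⟧} {B c : ℝ} (hb : Bd w h B) (hc : 0 ≤ c)
    (hw : ∀ k, coeff k h ≠ 0 → w' k ≤ c * w k) : Bd w' h (c * B) := by
  intro n
  refine le_trans ?_ (mul_le_mul_of_nonneg_left (hb n) hc)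
  unfold S
  rw [mul_sum]
  apply sum_le_sum
  intro k _
  by_cases h0 : coeff k h = 0
  · simp [h0]
  · have := mul_le_mul_of_nonneg_left (hw k h0) (norm_nonneg (coeff k h))
    linarith

lemma Bd.coeffs {w : ℕ → ℝ} (hw : ∀ k, 0 ≤ w k) {h h' : ℂ⟦X⟧} {B : ℝ} (hb : Bd w h B)
    (hh : ∀ k, ‖coeff k h'‖ ≤ ‖coeff k h‖) : Bd w h' B := fun n =>
  le_trans (sum_le_sum fun k _ => mul_le_mul_of_nonneg_right (hh k) (hw k)) (hb n)

lemma S_add {w : ℕ → ℝ} (hw : ∀ k, 0 ≤ w k) (n : ℕ) (a b : ℂ⟦X⟧) :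
    S w n (a + b) ≤ S w n a + S w n b := by
  unfold S
  rw [← sum_add_distrib]
  apply sum_le_sum
  intro k _
  rw [map_add, ← add_mul]
  exact mul_le_mul_of_nonneg_right (norm_add_le _ _) (hw k)

lemma S_neg (w : ℕ → ℝ) (n : ℕ) (a : ℂ⟦X⟧) : S w n (-a) = S w n a := by simp [S]

lemma Bd.add {w : ℕ → ℝ} (hw : ∀ k, 0 ≤ w k) {a b : ℂ⟦X⟧} {A B : ℝ} (ha : Bd w a A)
    (hb : Bd w b B) : Bd w (a + b) (A + B) := fun n =>
  (S_add hw n a b).trans (add_le_add (ha n) (hb n))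

lemma Bd.neg {w : ℕ → ℝ} {a : ℂ⟦X⟧} {A : ℝ} (ha : Bd w a A) : Bd w (-a) A := fun n => by
  rw [S_neg]; exact ha n

lemma Bd.sub {w : ℕ → ℝ} (hw : ∀ k, 0 ≤ w k) {a b : ℂ⟦X⟧} {A B : ℝ} (ha : Bd w a A)
    (hb : Bd w b B) : Bd w (a - b) (A + B) := by
  rw [sub_eq_add_neg]; exact ha.add hw hb.neg

lemma S_mul {w u v : ℕ → ℝ} (hw : ∀ k, 0 ≤ w k) (hu : ∀ k, 0 ≤ u k) (hv : ∀ k, 0 ≤ v k)
    (huv : ∀ i j, w (i + j) ≤ u i * v j) (n : ℕ) (a b : ℂ⟦X⟧) :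
    S w n (a * b) ≤ S u n a * S v n b := by
  unfold S
  rw [sum_mul_sum, ← sum_product']
  calc ∑ k ∈ range n, ‖coeff k (a * b)‖ * w k
      ≤ ∑ k ∈ range n, ∑ p ∈ antidiagonal k,
          ‖coeff p.1 a‖ * u p.1 * (‖coeff p.2 b‖ * v p.2) := by
        apply sum_le_sum
        intro k _
        rw [coeff_mul]
        refine (mul_le_mul_of_nonneg_right (norm_sum_le _ _) (hw k)).trans ?_
        rw [sum_mul]
        apply sum_le_sum
        intro p hp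
        rw [HasAntidiagonal.mem_antidiagonal] at hp
        rw [norm_mul, ← hp]
        have := mul_le_mul_of_nonneg_left (huv p.1 p.2)
          (mul_nonneg (norm_nonneg (coeff p.1 a)) (norm_nonneg (coeff p.2 b)))
        linarith
    _ = ∑ p ∈ (range n).biUnion antidiagonal,
          ‖coeff p.1 a‖ * u p.1 * (‖coeff p.2 b‖ * v p.2) := by
        rw [sum_biUnion]
        intro i _ j _ hij
        rw [Function.onFun, disjoint_left]
        intro p h1 h2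
        rw [HasAntidiagonal.mem_antidiagonal] at h1 h2
        exact hij (h1.symm.trans h2)
    _ ≤ _ := by
        apply sum_le_sum_of_subset_of_nonneg
        · intro p hp
          simp only [mem_biUnion, mem_range, HasAntidiagonal.mem_antidiagonal, mem_product] at hp ⊢
          obtain ⟨k, h1, h2⟩ := hp
          omega
        · intro p _ _
          have := hu p.1
          have := hv p.2
          positivity

lemma Bd.mul' {w u v : ℕ → ℝ} (hw : ∀ k, 0 ≤ w k) (hu : ∀ k, 0 ≤ u k) (hv : ∀ k, 0 ≤ v k)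
    (huv : ∀ i j, w (i + j) ≤ u i * v j) {a b : ℂ⟦X⟧} {A B : ℝ} (ha : Bd u a A) (hb : Bd v b B) :
    Bd w (a * b) (A * B) := fun n =>
  (S_mul hw hu hv huv n a b).trans (mul_le_mul (ha n) (hb n) (S_nonneg hv _ _) ha.nonneg)

lemma ge_nonneg {ρ : ℝ} (h : 0 ≤ ρ) (k : ℕ) : 0 ≤ ge ρ k := pow_nonneg h k

lemma Bd.mul {ρ : ℝ} (h : 0 ≤ ρ) {a b : ℂ⟦X⟧} {A B : ℝ} (ha : Bd (ge ρ) a A)
    (hb : Bd (ge ρ) b B) : Bd (ge ρ) (a * b) (A * B) :=
  Bd.mul' (ge_nonneg h) (ge_nonneg h) (ge_nonneg h) (fun i j => by simp [ge, pow_add]) ha hb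

lemma Bd.mul_anti {w : ℕ → ℝ} (hw : ∀ k, 0 ≤ w k) (hanti : Antitone w) {a b : ℂ⟦X⟧} {A B : ℝ}
    (ha : Bd (ge 1) a A) (hb : Bd w b B) : Bd w (a * b) (A * B) :=
  Bd.mul' hw (ge_nonneg zero_le_one) hw
    (fun i j => by simpa [ge] using hanti (Nat.le_add_left j i)) ha hb

lemma bd_monomial {w : ℕ → ℝ} (hw : ∀ k, 0 ≤ w k) (m : ℕ) (c : ℂ) :
    Bd w (monomial m c) (‖c‖ * w m) := by
  intro n
  unfold S
  have : ∀ k ∈ range n, ‖coeff k (monomial m c)‖ * w k = if k = m then ‖c‖ * w m else 0 := by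
    intro k _
    rw [coeff_monomial]; split_ifs with h
    · rw [h]
    · simp
  rw [sum_congr rfl this, sum_ite_eq']
  split_ifs
  · exact le_rfl
  · exact mul_nonneg (norm_nonneg _) (hw m)

lemma bd_one {w : ℕ → ℝ} (hw : ∀ k, 0 ≤ w k) (h0 : w 0 = 1) : Bd w 1 1 := by
  have := bd_monomial hw 0 1
  simpa [h0] using this

lemma bd_one_ge {ρ : ℝ} (h : 0 ≤ ρ) : Bd (ge ρ) 1 1 := bd_one (ge_nonneg h) (by simp [ge])

lemma Bd.pow {ρ : ℝ} (h : 0 ≤ ρ) {a : ℂ⟦X⟧} {A : ℝ} (ha : Bd (ge ρ) a A) (L : ℕ) :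
    Bd (ge ρ) (a ^ L) (A ^ L) := by
  induction L with
  | zero => simpa using bd_one_ge h
  | succ L ih => rw [pow_succ, pow_succ]; exact ih.mul h ha

lemma Bd.radius {σ ρ : ℝ} (h0 : 0 ≤ σ) (h : σ ≤ ρ) {a : ℂ⟦X⟧} {A : ℝ} (ha : Bd (ge ρ) a A) :
    Bd (ge σ) a A := by
  have := ha.weight (w' := ge σ) zero_le_one
    (fun k _ => by simpa [ge] using pow_le_pow_left₀ h0 h k)
  simpa using this

lemma Bd.radius_order {σ ρ : ℝ} (h0 : 0 ≤ σ) (hρ : 0 < ρ) (h : σ ≤ ρ) {a : ℂ⟦X⟧} {A : ℝ}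
    (ha : Bd (ge ρ) a A) {m : ℕ} (hm : ∀ k < m, coeff k a = 0) :
    Bd (ge σ) a ((σ / ρ) ^ m * A) := by
  apply ha.weight (by positivity)
  intro k hk
  have hmk : m ≤ k := by
    by_contra hc; exact hk (hm k (by omega))
  have e : ge σ k = (σ / ρ) ^ k * ge ρ k := by
    simp only [ge]; rw [← mul_pow, div_mul_cancel₀ _ hρ.ne']
  rw [e]
  exact mul_le_mul_of_nonneg_right
    (pow_le_pow_of_le_one (by positivity) ((div_le_one hρ).2 h) hmk) (ge_nonneg hρ.le k)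

/-- Neumann bound -/
lemma bd_inv {ρ : ℝ} (h : 0 ≤ ρ) {v a : ℂ⟦X⟧} (hv : Bd (ge ρ) v (1 / 2)) (ha : (1 + v) * a = 1) :
    Bd (ge ρ) a 2 := by
  intro n
  have e : a = 1 + -(v * a) := by linear_combination ha
  have h1 := S_add (ge_nonneg h) n 1 (-(v * a))
  rw [← e, S_neg] at h1
  have h2 := S_mul (ge_nonneg h) (ge_nonneg h) (ge_nonneg h) (fun i j => by simp [ge, pow_add])
    n v a
  have h3 := bd_one_ge h n
  have h4 := mul_le_mul_of_nonneg_right (hv n) (S_nonneg (ge_nonneg h) n a)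
  linarith

lemma bd_binom {ρ : ℝ} (h : 0 ≤ ρ) {v : ℂ⟦X⟧} {y : ℝ} (hv : Bd (ge ρ) v y) (L : ℕ) :
    Bd (ge ρ) ((1 + v) ^ L - 1 - L * v) ((1 + y) ^ L - 1 - L * y) := by
  induction L with
  | zero => intro n; simp [S]
  | succ L ih =>
    have hL : Bd (ge ρ) (L : ℂ⟦X⟧) L := by
      have := bd_monomial (ge_nonneg h) 0 (L : ℂ)
      simpa [ge] using this
    have := (((bd_one_ge h).add (ge_nonneg h) hv).mul h ih).add (ge_nonneg h)
      (hL.mul h (hv.mul h hv))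
    convert this using 1
    · push_cast; ring
    · push_cast; ring

lemma norm_eval_le (p : Polynomial ℂ) {n : ℕ} (hn : p.natDegree < n) (z : ℂ) :
    ‖p.eval z‖ ≤ S (ge ‖z‖) n (p : ℂ⟦X⟧) := by
  rw [Polynomial.eval_eq_sum_range' hn]
  refine (norm_sum_le _ _).trans (le_of_eq ?_)
  unfold S ge
  apply sum_congr rfl
  intro k _
  rw [norm_mul, norm_pow, Polynomial.coeff_coe]

lemma Bd.eval_le {p : Polynomial ℂ} {z : ℂ} {ρ B : ℝ} (h : Bd (ge ρ) (p : ℂ⟦X⟧) B)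
    (hz : ‖z‖ ≤ ρ) : ‖p.eval z‖ ≤ B :=
  (norm_eval_le p (Nat.lt_succ_self _) z).trans (h.radius (norm_nonneg _) hz _)

lemma Bd.trunc {w : ℕ → ℝ} (hw : ∀ k, 0 ≤ w k) {h : ℂ⟦X⟧} {B : ℝ} (hb : Bd w h B) (m : ℕ) :
    Bd w (trunc m h : ℂ⟦X⟧) B := by
  apply hb.coeffs hw
  intro k
  rw [Polynomial.coeff_coe, coeff_trunc]
  split_ifs <;> simp

lemma Bd.tail {w : ℕ → ℝ} (hw : ∀ k, 0 ≤ w k) {h : ℂ⟦X⟧} {B : ℝ} (hb : Bd w h B) (m : ℕ) :
    Bd w (h - (PowerSeries.trunc m h : ℂ⟦X⟧)) B := by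
  apply hb.coeffs hw
  intro k
  rw [map_sub, Polynomial.coeff_coe, coeff_trunc]
  split_ifs <;> simp

/-- passing from geometric weights to a weight that is geometric on an initial segment -/
lemma Bd.split {w : ℕ → ℝ} {r C A B : ℝ} {N : ℕ} (hr : 0 ≤ r) (hC : 0 ≤ C)
    (h1 : ∀ k ≤ N, w k ≤ C * r ^ k) (h2 : ∀ k, w k ≤ 1) {h : ℂ⟦X⟧} (ha : Bd (ge r) h A)
    (hb : Bd (ge 2) h B) : Bd w h (C * A + (1 / 2) ^ N * B) := by
  intro n
  have e1 := mul_le_mul_of_nonneg_left (ha n) hC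
  have e2 := mul_le_mul_of_nonneg_left (hb n) (by positivity : (0 : ℝ) ≤ (1 / 2) ^ N)
  refine le_trans ?_ (add_le_add e1 e2)
  unfold S
  rw [mul_sum, mul_sum, ← sum_add_distrib]
  apply sum_le_sum
  intro k _
  have : w k ≤ C * ge r k + (1 / 2) ^ N * ge 2 k := by
    simp only [ge]
    by_cases hk : k ≤ N
    · have := h1 k hk
      have : (0 : ℝ) ≤ (1 / 2) ^ N * 2 ^ k := by positivity
      linarith
    · have : (1 : ℝ) ≤ (1 / 2) ^ N * 2 ^ k := by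
        rw [one_div, inv_pow, ← div_eq_inv_mul, one_le_div (by positivity)]
        exact pow_le_pow_right₀ (by norm_num) (by omega)
      have := h2 k
      have : 0 ≤ C * r ^ k := by positivity
      linarith
  have := mul_le_mul_of_nonneg_left this (norm_nonneg (coeff k h))
  linarith

/-- three point test for a zero near `z` -/
lemma three_point (q : Polynomial ℂ) {M : ℕ} (hM : q.natDegree ≤ M) {z h : ℂ} {δ : ℝ}
    (hδ : 0 < δ) (hz : ∀ a, q.eval a = 0 → δ ≤ ‖z - a‖) :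
    ‖q.eval (z + h)‖ * ‖q.eval (z - h)‖ ≤ (1 + ‖h‖ ^ 2 / δ ^ 2) ^ M * ‖q.eval z‖ ^ 2 := by
  by_cases hq : q = 0
  · subst hq; simp
  have key : ∀ s : Multiset ℂ, (∀ a ∈ s, δ ≤ ‖z - a‖) →
      ‖(s.map (fun a => z + h - a)).prod‖ * ‖(s.map (fun a => z - h - a)).prod‖ ≤
        (1 + ‖h‖ ^ 2 / δ ^ 2) ^ s.card * ‖(s.map (fun a => z - a)).prod‖ ^ 2 := by
    intro s
    induction s using Multiset.induction_on with
    | empty => simp
    | cons a s ih =>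
      intro hs
      have ih' := ih (fun b hb => hs b (Multiset.mem_cons_of_mem hb))
      have ha := hs a (Multiset.mem_cons_self _ _)
      simp only [Multiset.map_cons, Multiset.prod_cons, Multiset.card_cons, norm_mul, pow_succ' _
        s.card, mul_pow]
      have h1 : ‖z + h - a‖ * ‖z - h - a‖ ≤ (1 + ‖h‖ ^ 2 / δ ^ 2) * ‖z - a‖ ^ 2 := by
        rw [← norm_mul]
        have e : (z + h - a) * (z - h - a) = (z - a) ^ 2 - h ^ 2 := by ring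
        rw [e]
        refine (norm_sub_le _ _).trans ?_
        rw [norm_pow, norm_pow]
        have : ‖h‖ ^ 2 ≤ ‖h‖ ^ 2 / δ ^ 2 * ‖z - a‖ ^ 2 := by
          rw [div_mul_eq_mul_div, le_div_iff₀ (by positivity)]
          exact mul_le_mul_of_nonneg_left (pow_le_pow_left₀ hδ.le ha 2) (by positivity)
        linarith
      calc _ = (‖z + h - a‖ * ‖z - h - a‖) * (‖(s.map (fun a => z + h - a)).prod‖ *
            ‖(s.map (fun a => z - h - a)).prod‖) := by ring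
        _ ≤ ((1 + ‖h‖ ^ 2 / δ ^ 2) * ‖z - a‖ ^ 2) * ((1 + ‖h‖ ^ 2 / δ ^ 2) ^ s.card *
            ‖(s.map (fun a => z - a)).prod‖ ^ 2) :=
          mul_le_mul h1 ih' (by positivity) (by positivity)
        _ = _ := by ring
  have hs := IsAlgClosed.splits q
  have ev : ∀ x, q.eval x = q.leadingCoeff * (q.roots.map (fun a => x - a)).prod := fun x =>
    hs.eval_eq_prod_roots x
  have := key q.roots (fun a ha => hz a ((Polynomial.mem_roots hq).1 ha))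
  rw [ev, ev, ev]
  simp only [norm_mul, mul_pow]
  have hc : (1 + ‖h‖ ^ 2 / δ ^ 2) ^ q.roots.card ≤ (1 + ‖h‖ ^ 2 / δ ^ 2) ^ M :=
    pow_le_pow_right₀ (by have : 0 ≤ ‖h‖ ^ 2 / δ ^ 2 := by positivity
                          linarith) ((Polynomial.card_roots' q).trans hM)
  have h2 := this.trans (mul_le_mul_of_nonneg_right hc (by positivity))
  have h3 := mul_le_mul_of_nonneg_left h2 (by positivity : 0 ≤ ‖q.leadingCoeff‖ ^ 2)
  nlinarith [h3]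

end Pool.Agent.P.MP_48c50a_an
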