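import Pool.Agent.P.MP_48c50a_an.Limit

namespace Pool.Agent.P.MP_48c50a_an

open Finset PowerSeries Filter Topology

lemma exists_kappa {β : ℝ} (hβ : 0 < β) :
    ∃ κ : ℝ, 0 < κ ∧ κ ≤ 1 / 2 ∧ ∀ y : ℂ, ‖y‖ < κ → |Complex.arg (1 + y)| < β := by
  have := Metric.continuousAt_iff.1 (Complex.continuousAt_arg Complex.one_mem_slitPlane) β hβ
  obtain ⟨d, hd, h⟩ := this
  refine ⟨min d (1 / 2), by positivity, min_le_right _ _, fun y hy => ?_⟩
  have := @h (1 + y) (by simpa [dist_eq_norm] using hy.trans_le (min_le_left _ _))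
  simpa [Real.dist_eq] using this

lemma sector_ball {ζ : ℂ} (hζ : ‖ζ‖ = 1) {ρ θ₁ θ₂ : ℝ} (hρ : 0 < ρ) (hθ : θ₁ < θ₂) :
    ∃ (i : ℕ) (z : ℂ), 1 ≤ i ∧ (‖z‖ = 1 - 1 / ((i : ℝ) + 10) ∨ ‖z‖ = 1 + 1 / ((i : ℝ) + 10)) ∧
      ∀ a : ℂ, ‖z - a‖ < (1 / ((i : ℝ) + 10)) ^ 2 → ∃ r θ : ℝ, 0 < r ∧ r < ρ ∧ θ₁ < θ ∧ θ < θ₂ ∧
        a = ζ + r * Complex.exp (θ * Complex.I) := by
  obtain ⟨κ, hκ0, hκ1, hκ⟩ := exists_kappa (β := (θ₂ - θ₁) / 2) (by linarith)
  set θ₀ := (θ₁ + θ₂) / 2 with hθ₀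
  set u := Complex.exp (θ₀ * Complex.I) with hu
  have nu : ‖u‖ = 1 := Complex.norm_exp_ofReal_mul_I _
  set φ : ℝ → ℝ := fun s => ‖ζ + s * u‖ with hφ
  have cφ : Continuous φ := by fun_prop
  have φ0 : φ 0 = 1 := by simp [hφ, hζ]
  obtain ⟨s₀, hs0, hs1, hs2⟩ : ∃ s₀ : ℝ, 0 < s₀ ∧ s₀ ≤ ρ / 2 ∧ φ s₀ ≠ 1 := by
    by_contra hc
    push Not at hc
    have a1 := hc (ρ / 2) (by linarith) le_rfl
    have a2 := hc (ρ / 4) (by linarith) (by linarith)
    have a3 := parallelogram_law_with_norm ℝ (ζ + (ρ / 4 : ℝ) * u) ((ρ / 4 : ℝ) * u)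
    have e1 : ζ + (ρ / 4 : ℝ) * u + (ρ / 4 : ℝ) * u = ζ + (ρ / 2 : ℝ) * u := by push_cast; ring
    have e2 : ‖((ρ / 4 : ℝ) : ℂ) * u‖ = ρ / 4 := by
      rw [norm_mul, nu, Complex.norm_real, Real.norm_of_nonneg (by linarith), mul_one]
    simp only [hφ] at a1 a2
    rw [e1, add_sub_cancel_right, a1, a2, hζ, e2] at a3
    nlinarith
  have hm : 0 < min κ |φ s₀ - 1| := lt_min hκ0 (abs_pos.2 (sub_ne_zero.2 hs2))
  obtain ⟨i, hi⟩ := exists_nat_one_div_lt hm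
  set t : ℝ := 1 / (((i + 1 : ℕ) : ℝ) + 10) with ht
  have ht0 : 0 < t := by positivity
  have ht1 : t < min κ |φ s₀ - 1| := by
    refine lt_of_le_of_lt ?_ hi
    rw [ht]; push_cast
    exact one_div_le_one_div_of_le (by positivity) (by linarith)
  have htκ := ht1.trans_le (min_le_left _ _)
  have htφ := ht1.trans_le (min_le_right _ _)
  obtain ⟨s, hs, hs'⟩ : ∃ s ∈ Set.Icc 0 s₀, φ s = 1 - t ∨ φ s = 1 + t := by
    rcases lt_abs.1 htφ with h | h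
    · obtain ⟨s, a, b⟩ := intermediate_value_Icc hs0.le cφ.continuousOn
        (show 1 + t ∈ Set.Icc (φ 0) (φ s₀) from ⟨by linarith, by linarith⟩)
      exact ⟨s, a, Or.inr b⟩
    · obtain ⟨s, a, b⟩ := intermediate_value_Icc' hs0.le cφ.continuousOn
        (show 1 - t ∈ Set.Icc (φ s₀) (φ 0) from ⟨by linarith, by linarith⟩)
      exact ⟨s, a, Or.inl b⟩
  have nsu : ‖(s : ℂ) * u‖ = s := by
    rw [norm_mul, nu, Complex.norm_real, Real.norm_of_nonneg hs.1, mul_one]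
  have hts : t ≤ s := by
    have := abs_norm_sub_norm_le (ζ + s * u) ζ
    rw [add_sub_cancel_left, nsu, hζ, abs_le] at this
    simp only [hφ] at hs'
    rcases hs' with h | h <;> linarith [this.1, this.2]
  have hspos : 0 < s := by linarith
  refine ⟨i + 1, ζ + s * u, by omega, hs', fun a ha => ?_⟩
  have hsu : (s : ℂ) * u ≠ 0 := by
    rw [← norm_pos_iff, nsu]; exact hspos
  set y := (a - (ζ + s * u)) / (s * u) with hy
  have ny : ‖y‖ < κ := by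
    rw [hy, norm_div, nsu, norm_sub_rev, div_lt_iff₀ hspos]
    refine ha.trans_le ?_
    rw [← ht]
    nlinarith
  have harg := abs_lt.1 (hκ y ny)
  have n1 : ‖1 + y‖ < 2 := by
    have := norm_add_le 1 y
    rw [norm_one] at this; linarith
  have n2 : 0 < ‖1 + y‖ := by
    have := norm_sub_norm_le (1 : ℂ) (-y)
    rw [norm_one, norm_neg, sub_neg_eq_add] at this; linarith
  refine ⟨s * ‖1 + y‖, θ₀ + Complex.arg (1 + y), by positivity, ?_, by linarith [harg.1],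
    by linarith [harg.2], ?_⟩
  · have := hs.2
    nlinarith
  · have e := Complex.norm_mul_exp_arg_mul_I (1 + y)
    have e2 : a = ζ + s * u * (1 + y) := by
      rw [mul_add, hy, mul_div_cancel₀ _ hsu]; ring
    rw [Complex.ofReal_add, add_mul, Complex.exp_add, ← hu, Complex.ofReal_mul]
    linear_combination e2 - s * u * e

theorem main : ∃ (W : ℕ → ℝ) (F : ℂ⟦X⟧), W 0 = 1 ∧ (∀ k, 0 < W k) ∧ Antitone W ∧
    Tendsto (fun k => W k ^ 2 / W (k + 1) ^ 2) atTop (𝓝 1) ∧ Bd W F 2 ∧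
    (∀ j : ℕ, ∃ T : Polynomial ℂ, Bd W ((T : ℂ⟦X⟧) * F - 1) ((1 / 2) ^ j)) ∧
    ∀ ζ : ℂ, ‖ζ‖ = 1 → ∀ ρ θ₁ θ₂ : ℝ, 0 < ρ → θ₁ < θ₂ → ∃ n : ℕ, ∀ q : Polynomial ℂ,
      q.natDegree ≤ n → (∀ p : Polynomial ℂ, p.natDegree ≤ n →
        nsq (fun k => W k ^ 2) ((q : ℂ⟦X⟧) * F - 1) ≤
          nsq (fun k => W k ^ 2) ((p : ℂ⟦X⟧) * F - 1)) →
      q ≠ 0 ∧ ∃ r θ : ℝ, 0 < r ∧ r < ρ ∧ θ₁ < θ ∧ θ < θ₂ ∧
        q.eval (ζ + r * Complex.exp (θ * Complex.I)) = 0 := by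
  set t : ℕ → ℝ := fun j => 1 / (((j / 2 : ℕ) : ℝ) + 10) with ht
  have t0 : ∀ j, 0 < t j := fun j => by positivity
  have t1 : ∀ j, t j ≤ 1 / 10 := fun j =>
    one_div_le_one_div_of_le (by norm_num) (by linarith [Nat.cast_nonneg (α := ℝ) (j / 2)])
  have ta : Antitone t := fun a b hab => one_div_le_one_div_of_le (by positivity) (by
    have : ((a / 2 : ℕ) : ℝ) ≤ (b / 2 : ℕ) := by exact_mod_cast Nat.div_le_div_right hab
    linarith)
  obtain ⟨W, F, W0, Wpos, Wa, hrat, hF, hG⟩ := exists_limit (fun j => 1 - 2 * t j)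
    (fun j => if j % 2 = 0 then 1 - t j else 1 + t j) (fun j => t j ^ 2)
    (fun a b hab => by have := ta hab; dsimp only; linarith)
    (fun j => by linarith [t1 j]) (fun j => by linarith [t0 j])
    (fun j => by split_ifs <;> linarith [t0 j]) (fun j => by split_ifs <;> linarith [t0 j, t1 j])
    (fun j => pow_pos (t0 j) 2)
  have hW : ∀ k, 0 ≤ W k := fun k => (Wpos k).le
  refine ⟨W, F, W0, Wpos, Wa, ?_, hF, fun j => ?_, ?_⟩
  · have : Tendsto (fun k => W (k + 1) / W k) atTop (𝓝 1) := by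
      rw [tendsto_order]
      constructor
      · intro a ha
        obtain ⟨i, hi⟩ := exists_nat_one_div_lt (by linarith : 0 < (1 - a) / 2)
        have h1 : t (2 * i) ≤ 1 / ((i : ℝ) + 1) := by
          simp only [ht, Nat.mul_div_cancel_left i two_pos]
          exact one_div_le_one_div_of_le (by positivity) (by linarith)
        filter_upwards [hrat (2 * i)] with k hk
        rw [lt_div_iff₀ (Wpos k)]
        refine lt_of_lt_of_le (mul_lt_mul_of_pos_right (by linarith) (Wpos k)) hk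
      · intro a ha
        exact Eventually.of_forall fun k =>
          lt_of_le_of_lt ((div_le_one (Wpos k)).2 (Wa (Nat.le_succ k))) ha
    have h2 := (this.inv₀ one_ne_zero).pow 2
    simp only [inv_div, inv_one, one_pow, div_pow] at h2
    exact h2
  · obtain ⟨M, T, η, a, b, c, d⟩ := hG j
    exact ⟨T, b.mono c⟩
  intro ζ hζ ρ θ₁ θ₂ hρ hθ
  obtain ⟨i, z, hi, hz, hball⟩ := sector_ball hζ hρ hθ
  obtain ⟨j, hj1, hj2, hj3⟩ : ∃ j, 1 ≤ j ∧ t j = 1 / ((i : ℝ) + 10) ∧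
      ‖z‖ = if j % 2 = 0 then 1 - t j else 1 + t j := by
    have a1 : t (2 * i) = 1 / ((i : ℝ) + 10) := by
      simp only [ht, Nat.mul_div_cancel_left i two_pos]
    have a2 : t (2 * i + 1) = 1 / ((i : ℝ) + 10) := by
      simp only [ht, show (2 * i + 1) / 2 = i by omega]
    rcases hz with h | h
    · exact ⟨2 * i, by omega, a1, by rw [if_pos (by omega), a1, h]⟩
    · exact ⟨2 * i + 1, by omega, a2, by rw [if_neg (by omega), a2, h]⟩
  obtain ⟨M, T, η, a, b, c, d⟩ := hG j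
  refine ⟨M, fun q hq hmin => ?_⟩
  have hc := coeff_le_of_nsq b.nonneg ((hmin T a).trans (nsq_le hW b))
  constructor
  · rintro rfl
    have h0 := hc 0
    have : ((1 : ℝ) / 2) ^ j < 1 := pow_lt_one₀ (by norm_num) (by norm_num) (by omega)
    simp [W0] at h0
    linarith
  · obtain ⟨x, hx0, hx⟩ := d q hq hc z hj3
    rw [hj2] at hx
    obtain ⟨r, θ, p1, p2, p3, p4, rfl⟩ := hball x hx
    exact ⟨r, θ, p1, p2, p3, p4, hx0⟩

end Pool.Agent.P.MP_48c50a_an
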