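import Pool.Agent.P.MP_48c50a_an.Step

namespace Pool.Agent.P.MP_48c50a_an

open Finset PowerSeries Filter Topology

/-- the initial state -/
noncomputable def St.init : St where
  f := 1
  g := 1
  K := 1
  N := 0
  w := fun _ => 1
  ε := 1
  hfg := one_mul 1
  hf := bd_one_ge (by norm_num)
  hg := bd_one_ge (by norm_num)
  hK := le_rfl
  w0 := rfl
  wpos := fun _ => one_pos
  wanti := fun _ _ _ => le_rfl
  hε := one_pos

theorem exists_limit (r R δ : ℕ → ℝ) (hr : Monotone r) (h1 : ∀ j, 4 / 5 ≤ r j)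
    (h2 : ∀ j, r j ≤ 1) (h3 : ∀ j, r j < R j) (h4 : ∀ j, R j ≤ 5 / 4) (hδ : ∀ j, 0 < δ j) :
    ∃ (W : ℕ → ℝ) (F : ℂ⟦X⟧), W 0 = 1 ∧ (∀ k, 0 < W k) ∧ Antitone W ∧
      (∀ j, ∀ᶠ k in atTop, r j * W k ≤ W (k + 1)) ∧ Bd W F 2 ∧
      ∀ j, Good W F (R j) (δ j) ((1 / 2) ^ j) := by
  choose nx hnx using fun (j : ℕ) (s : St) => step s (h1 j) (h2 j) (h3 j) (h4 j) (hδ j)
  let s : ℕ → St := fun j => Nat.rec St.init (fun j t => nx j t) j
  have s0 : s 0 = St.init := rfl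
  have hs : ∀ j, Rel (r j) (R j) (δ j) (s j) (s (j + 1)) := fun j => hnx j (s j)
  clear_value s
  have hN : StrictMono fun j => (s j).N := strictMono_nat_of_lt_succ fun j => (hs j).1
  have hNle : ∀ j, j ≤ (s j).N := fun j => hN.le_apply
  have stab : ∀ j i, j ≤ i → ∀ k ≤ (s j).N,
      (s i).w k = (s j).w k ∧ coeff k (s i).f = coeff k (s j).f := by
    intro j i hji k hk
    induction i, hji using Nat.le_induction with
    | base => exact ⟨rfl, rfl⟩
    | succ i hji ih =>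
      have := hN.monotone hji
      exact ⟨((hs i).2.1 k (hk.trans this)).trans ih.1,
        ((hs i).2.2.2.1 k (hk.trans this)).trans ih.2⟩
  set W : ℕ → ℝ := fun k => (s k).w k with hW
  set F : ℂ⟦X⟧ := PowerSeries.mk fun k => coeff k (s k).f with hF
  have agree : ∀ j, ∀ k ≤ (s j).N, W k = (s j).w k ∧ coeff k F = coeff k (s j).f := by
    intro j k hk
    simp only [hW, hF, coeff_mk]
    rcases le_total j k with h | h
    · exact stab j k h k hk
    · exact ⟨(stab k j h k (hNle k)).1.symm, (stab k j h k (hNle k)).2.symm⟩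
  have Wpos : ∀ k, 0 < W k := fun k => (s k).wpos k
  have W0 : ∀ k, 0 ≤ W k := fun k => (Wpos k).le
  have Wanti : Antitone W := by
    apply antitone_nat_of_succ_le
    intro k
    have := hNle (k + 1)
    rw [(agree (k + 1) k (by omega)).1, (agree (k + 1) (k + 1) this).1]
    exact (s (k + 1)).wanti (Nat.le_succ k)
  have main := fun j => (hs j).2.2.2.2.2 W W0 Wanti (fun k hk => (agree (j + 1) k hk).1)
  have tele : ∀ j i, j ≤ i → Bd W ((s i).f - (s j).f) ((s j).ε - (s i).ε) := by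
    intro j i hji
    induction i, hji using Nat.le_induction with
    | base => intro n; simp [S]
    | succ i hji ih =>
      have e : (s (i + 1)).f - (s j).f = ((s (i + 1)).f - (s i).f) + ((s i).f - (s j).f) := by ring
      rw [e]
      refine ((main i).1.add W0 ih).mono ?_
      have := (hs i).2.2.2.2.1
      linarith
  have lim : ∀ j, Bd W (F - (s j).f) (s j).ε := by
    intro j n
    have h := tele j (j + n) (Nat.le_add_right _ _) n
    have := (s (j + n)).hε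
    refine le_trans (le_of_eq ?_) (h.trans (by linarith))
    unfold S
    apply sum_congr rfl
    intro k hk
    have := hNle (j + n)
    rw [map_sub, map_sub, (agree (j + n) k (by have := mem_range.1 hk; omega)).2]
  have eps : ∀ j, (s j).ε ≤ (1 / 2) ^ j := by
    intro j
    induction j with
    | zero => rw [s0]; simp [St.init]
    | succ j ih =>
      have := (hs j).2.2.2.2.1
      rw [pow_succ]; linarith
  have W00 : W 0 = 1 := (s 0).w0
  refine ⟨W, F, W00, Wpos, Wanti, ?_, ?_, ?_⟩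
  · intro j
    have : ∀ i, j + 1 ≤ i → ∀ k, (s j).N ≤ k → r j * (s i).w k ≤ (s i).w (k + 1) := by
      intro i hi
      induction i, hi using Nat.le_induction with
      | base => exact (hs j).2.2.1
      | succ i hji ih =>
        intro k hk
        by_cases h : (s i).N ≤ k
        · refine le_trans ?_ ((hs i).2.2.1 k h)
          exact mul_le_mul_of_nonneg_right (hr (by omega)) ((s (i + 1)).wpos k).le
        · rw [(hs i).2.1 k (by omega), (hs i).2.1 (k + 1) (by omega)]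
          exact ih k hk
    filter_upwards [eventually_ge_atTop (s j).N] with k hk
    have h5 := hNle (k + 1)
    have h6 := hNle j
    rw [(agree (k + 1) k (by omega)).1, (agree (k + 1) (k + 1) h5).1]
    exact this (k + 1) (by omega) k hk
  · have := (lim 0).add W0 (bd_one W0 W00)
    rw [s0] at this
    simpa [St.init, one_add_one_eq_two] using this
  · intro j
    obtain ⟨M, T, η, a, b, c, d⟩ :=
      (main j).2 F (fun k hk => (agree (j + 1) k hk).2) (lim (j + 1))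
    exact ⟨M, T, η, a, b, c.trans (eps j), d⟩

/-- squared weighted `ℓ²` norm -/
noncomputable def nsq (ω : ℕ → ℝ) (h : ℂ⟦X⟧) : ENNReal :=
  ∑' k, ENNReal.ofReal (‖coeff k h‖ ^ 2 * ω k)

lemma sum_sq_le {W : ℕ → ℝ} (hW : ∀ k, 0 ≤ W k) {h : ℂ⟦X⟧} {η : ℝ} (hb : Bd W h η) (n : ℕ) :
    ∑ k ∈ range n, ‖coeff k h‖ ^ 2 * W k ^ 2 ≤ η ^ 2 := by
  have := sum_sq_le_sq_sum_of_nonneg (s := range n) (f := fun k => ‖coeff k h‖ * W k)
    (fun k _ => mul_nonneg (norm_nonneg _) (hW k))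
  simp only [mul_pow] at this
  exact this.trans (pow_le_pow_left₀ (S_nonneg hW n h) (hb n) 2)

lemma nsq_le {W : ℕ → ℝ} (hW : ∀ k, 0 ≤ W k) {h : ℂ⟦X⟧} {η : ℝ} (hb : Bd W h η) :
    nsq (fun k => W k ^ 2) h ≤ ENNReal.ofReal (η ^ 2) := by
  apply ENNReal.tsum_le_of_sum_range_le
  intro n
  rw [← ENNReal.ofReal_sum_of_nonneg (fun k _ => by positivity)]
  exact ENNReal.ofReal_le_ofReal (sum_sq_le hW hb n)

lemma coeff_le_of_nsq {W : ℕ → ℝ} {h : ℂ⟦X⟧} {η : ℝ} (hη : 0 ≤ η)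
    (hb : nsq (fun k => W k ^ 2) h ≤ ENNReal.ofReal (η ^ 2)) (k : ℕ) : ‖coeff k h‖ * W k ≤ η := by
  have := (ENNReal.le_tsum (f := fun k => ENNReal.ofReal (‖coeff k h‖ ^ 2 * W k ^ 2)) k).trans hb
  rw [ENNReal.ofReal_le_ofReal_iff (by positivity), ← mul_pow] at this
  exact (abs_le_of_sq_le_sq' this hη).2

lemma nsq_add {ω : ℕ → ℝ} (hω : ∀ k, 0 ≤ ω k) (a b : ℂ⟦X⟧) :
    nsq ω (a + b) ≤ 2 * nsq ω a + 2 * nsq ω b := by
  unfold nsq
  rw [← ENNReal.tsum_mul_left, ← ENNReal.tsum_mul_left, ← ENNReal.tsum_add]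
  apply ENNReal.tsum_le_tsum
  intro k
  have h := hω k
  rw [← ENNReal.ofReal_ofNat 2, ← ENNReal.ofReal_mul (by norm_num),
    ← ENNReal.ofReal_mul (by norm_num), ← ENNReal.ofReal_add (by positivity) (by positivity)]
  apply ENNReal.ofReal_le_ofReal
  have h1 : ‖coeff k (a + b)‖ ≤ ‖coeff k a‖ + ‖coeff k b‖ := by
    rw [map_add]; exact norm_add_le _ _
  have h2 : ‖coeff k (a + b)‖ ^ 2 ≤ 2 * ‖coeff k a‖ ^ 2 + 2 * ‖coeff k b‖ ^ 2 := by
    have := pow_le_pow_left₀ (norm_nonneg _) h1 2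
    nlinarith [sq_nonneg (‖coeff k a‖ - ‖coeff k b‖)]
  have := mul_le_mul_of_nonneg_right h2 h
  linarith

lemma nsq_trunc {ω : ℕ → ℝ} {g : ℂ⟦X⟧} (hg : nsq ω g < ⊤) :
    Tendsto (fun n => nsq ω ((PowerSeries.trunc n g : ℂ⟦X⟧) - g)) atTop (𝓝 0) := by
  refine (ENNReal.tendsto_sum_nat_add _ hg.ne).congr fun n => ?_
  unfold nsq
  rw [← Summable.sum_add_tsum_nat_add' (k := n) (f := fun k => ENNReal.ofReal
    (‖coeff k ((PowerSeries.trunc n g : ℂ⟦X⟧) - g)‖ ^ 2 * ω k)) ENNReal.summable,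
    sum_eq_zero, zero_add]
  · apply tsum_congr
    intro k
    rw [map_sub, Polynomial.coeff_coe, coeff_trunc, if_neg (by omega), zero_sub, norm_neg]
  · intro k hk
    rw [map_sub, Polynomial.coeff_coe, coeff_trunc, if_pos (mem_range.1 hk)]
    simp

lemma exists_bd_poly (p : Polynomial ℂ) : ∃ B, Bd (ge 1) (p : ℂ⟦X⟧) B := by
  induction p using Polynomial.induction_on' with
  | add p q hp hq =>
    obtain ⟨A, hA⟩ := hp
    obtain ⟨B, hB⟩ := hq
    exact ⟨A + B, by rw [Polynomial.coe_add]; exact hA.add (ge_nonneg zero_le_one) hB⟩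
  | monomial n a =>
    exact ⟨_, by rw [Polynomial.coe_monomial]; exact bd_monomial (ge_nonneg zero_le_one) n a⟩

lemma cyclic_of {W : ℕ → ℝ} (hW : ∀ k, 0 ≤ W k) (hWa : Antitone W) {F : ℂ⟦X⟧}
    (hT : ∀ j : ℕ, ∃ T : Polynomial ℂ, Bd W ((T : ℂ⟦X⟧) * F - 1) ((1 / 2) ^ j)) (g : ℂ⟦X⟧)
    (hg : nsq (fun k => W k ^ 2) g < ⊤) (ε : ENNReal) (hε : 0 < ε) :
    ∃ p : Polynomial ℂ, nsq (fun k => W k ^ 2) ((p : ℂ⟦X⟧) * F - g) < ε := by
  obtain ⟨e, he0, he⟩ : ∃ e : ℝ, 0 < e ∧ ENNReal.ofReal (4 * e) ≤ ε := by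
    obtain ⟨e, he, he'⟩ := ENNReal.lt_iff_exists_real_btwn.1 hε
    have : 0 < e := ENNReal.ofReal_pos.1 he'.1
    exact ⟨e / 4, by positivity, by rw [show 4 * (e / 4) = e by ring]; exact he'.2.le⟩
  obtain ⟨n, hn⟩ := ((nsq_trunc hg).eventually_lt_const (ENNReal.ofReal_pos.2 he0)).exists
  obtain ⟨B, hB⟩ := exists_bd_poly (PowerSeries.trunc n g)
  obtain ⟨j, hj⟩ := (ev_pow (x := 1 / 4) (by norm_num) (by norm_num) (B ^ 2) he0).exists
  obtain ⟨T, hT⟩ := hT j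
  refine ⟨PowerSeries.trunc n g * T, ?_⟩
  have e1 : ((PowerSeries.trunc n g * T : Polynomial ℂ) : ℂ⟦X⟧) * F - g =
      (PowerSeries.trunc n g : ℂ⟦X⟧) * ((T : ℂ⟦X⟧) * F - 1) +
        ((PowerSeries.trunc n g : ℂ⟦X⟧) - g) := by
    rw [Polynomial.coe_mul]; ring
  have h1 := nsq_le hW (Bd.mul_anti hW hWa hB hT)
  have h2 : (B * (1 / 2) ^ j) ^ 2 ≤ e := by
    refine le_trans (le_of_eq ?_) hj.le
    rw [mul_pow, ← pow_mul, mul_comm j 2, pow_mul]; norm_num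
  rw [e1]
  refine (nsq_add (fun k => by positivity) _ _).trans_lt (lt_of_lt_of_le ?_ he)
  have e2 : ENNReal.ofReal (4 * e) = 2 * ENNReal.ofReal e + 2 * ENNReal.ofReal e := by
    rw [ENNReal.ofReal_mul (by norm_num), ← add_mul]; norm_num
  rw [e2]
  apply ENNReal.add_lt_add_of_le_of_lt
  · exact ENNReal.mul_ne_top (by norm_num) (ne_top_of_le_ne_top ENNReal.ofReal_ne_top h1)
  · exact mul_le_mul_right (h1.trans (ENNReal.ofReal_le_ofReal h2)) _
  · exact ENNReal.mul_lt_mul_right (by norm_num) (by norm_num) hn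

lemma memlp {W : ℕ → ℝ} (hW : ∀ k, 0 ≤ W k) {h : ℂ⟦X⟧} {η : ℝ} (hb : Bd W h η) :
    Memℓp (fun k => coeff k h * (W k : ℂ)) 2 := by
  apply memℓp_gen' (C := η ^ 2)
  intro s
  obtain ⟨n, hn⟩ := s.exists_nat_subset_range
  refine le_trans ?_ (sum_sq_le hW hb n)
  refine le_trans (le_of_eq ?_) (sum_le_sum_of_subset_of_nonneg hn fun k _ _ => by positivity)
  apply sum_congr rfl
  intro k _
  simp [mul_pow]

lemma nsq_eq (W : ℕ → ℝ) (h : ℂ⟦X⟧) (x : lp (fun _ : ℕ => ℂ) 2)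
    (hx : ∀ k, x k = -(coeff k h * (W k : ℂ))) :
    nsq (fun k => W k ^ 2) h = ENNReal.ofReal (‖x‖ ^ 2) := by
  have h2 : (0 : ℝ) < (2 : ENNReal).toReal := by norm_num
  have h3 := lp.norm_rpow_eq_tsum h2 x
  have h4 := (lp.memℓp x).summable h2
  simp only [ENNReal.toReal_ofNat, Real.rpow_ofNat] at h3 h4
  rw [h3, ENNReal.ofReal_tsum_of_nonneg (fun k => by positivity) h4]
  unfold nsq
  apply tsum_congr
  intro k
  rw [hx]
  simp [mul_pow]

lemma exists_opa {W : ℕ → ℝ} (hW : ∀ k, 0 ≤ W k) (hWa : Antitone W) (h0 : W 0 = 1) {F : ℂ⟦X⟧}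
    {B : ℝ} (hF : Bd W F B) (n : ℕ) :
    ∃ q : Polynomial ℂ, q.natDegree ≤ n ∧ ∀ p : Polynomial ℂ, p.natDegree ≤ n →
      nsq (fun k => W k ^ 2) ((q : ℂ⟦X⟧) * F - 1) ≤ nsq (fun k => W k ^ 2) ((p : ℂ⟦X⟧) * F - 1) := by
  have mem : ∀ p : Polynomial ℂ, Memℓp (fun k => coeff k ((p : ℂ⟦X⟧) * F) * (W k : ℂ)) 2 := by
    intro p
    obtain ⟨A, hA⟩ := exists_bd_poly p
    exact memlp hW (Bd.mul_anti hW hWa hA hF)
  let Φ : Polynomial ℂ →ₗ[ℂ] lp (fun _ : ℕ => ℂ) 2 :=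
    { toFun := fun p => ⟨fun k => coeff k ((p : ℂ⟦X⟧) * F) * (W k : ℂ), mem p⟩
      map_add' := fun p q => by
        ext k
        simp [add_mul]
      map_smul' := fun c p => by
        ext k
        simp [mul_assoc] }
  let e : lp (fun _ : ℕ => ℂ) 2 := ⟨fun k => coeff k (1 : ℂ⟦X⟧) * (W k : ℂ), memlp hW (bd_one hW h0)⟩
  have key : ∀ p : Polynomial ℂ,
      nsq (fun k => W k ^ 2) ((p : ℂ⟦X⟧) * F - 1) = ENNReal.ofReal (‖e - Φ p‖ ^ 2) := by
    intro p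
    apply nsq_eq
    intro k
    have : (e - Φ p) k = coeff k (1 : ℂ⟦X⟧) * (W k : ℂ) - coeff k ((p : ℂ⟦X⟧) * F) * (W k : ℂ) := rfl
    rw [this, map_sub]; ring
  have : FiniteDimensional ℂ (Polynomial.degreeLT ℂ (n + 1)) :=
    Module.Finite.equiv (Polynomial.degreeLTEquiv ℂ (n + 1)).symm
  obtain ⟨v, ⟨q, hq, rfl⟩, hv⟩ := Submodule.exists_norm_eq_iInf_of_complete_subspace
    ((Polynomial.degreeLT ℂ (n + 1)).map Φ) (Submodule.complete_of_finiteDimensional _) e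
  have hd : ∀ p : Polynomial ℂ, p ∈ Polynomial.degreeLT ℂ (n + 1) ↔ p.natDegree ≤ n := by
    intro p
    rw [Polynomial.degreeLT_succ_eq_degreeLE, Polynomial.mem_degreeLE,
      Polynomial.natDegree_le_iff_degree_le]
  refine ⟨q, (hd q).1 hq, fun p hp => ?_⟩
  rw [key, key]
  apply ENNReal.ofReal_le_ofReal
  apply pow_le_pow_left₀ (norm_nonneg _)
  rw [hv]
  exact ciInf_le ⟨0, by rintro _ ⟨x, rfl⟩; exact norm_nonneg _⟩
    (⟨Φ p, Submodule.mem_map_of_mem ((hd p).2 hp)⟩ :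
      (((Polynomial.degreeLT ℂ (n + 1)).map Φ : Submodule ℂ _) : Set (lp (fun _ : ℕ => ℂ) 2)))

end Pool.Agent.P.MP_48c50a_an
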