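import Pool.Agent.P.MP_48c50a_an.Zero

namespace Pool.Agent.P.MP_48c50a_an

open Finset PowerSeries Filter Topology

lemma sq_dvd_binom (v : ℂ⟦X⟧) (L : ℕ) : v ^ 2 ∣ (1 + v) ^ L - 1 - L * v := by
  induction L with
  | zero => simp
  | succ L ih =>
    have e : (1 + v) ^ (L + 1) - 1 - ((L + 1 : ℕ) : ℂ⟦X⟧) * v =
        (1 + v) * ((1 + v) ^ L - 1 - L * v) + L * v ^ 2 := by push_cast; ring
    rw [e]
    exact dvd_add (Dvd.dvd.mul_left ih _) (Dvd.intro_left _ rfl)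

lemma binom_le {x : ℝ} (h0 : 0 ≤ x) (h1 : x ≤ 1) {L : ℕ} (hL : 0 < L) :
    (1 + 1 / (L : ℝ) * x) ^ L - 1 - L * (1 / (L : ℝ) * x) ≤ x ^ 2 := by
  have hL' : (0 : ℝ) < L := by exact_mod_cast hL
  have e : (L : ℝ) * (1 / (L : ℝ) * x) = x := by field_simp
  have a1 : (1 + 1 / (L : ℝ) * x) ^ L ≤ Real.exp x := by
    calc _ ≤ (Real.exp (1 / (L : ℝ) * x)) ^ L := by
          apply pow_le_pow_left₀ (by positivity)
          have := Real.add_one_le_exp (1 / (L : ℝ) * x)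
          linarith
      _ = _ := by rw [← Real.exp_nat_mul, e]
  have a2 := Real.abs_exp_sub_one_sub_id_le (x := x) (by rw [abs_of_nonneg h0]; exact h1)
  have a3 := le_abs_self (Real.exp x - 1 - x)
  rw [e]
  linarith

lemma construct {f g : ℂ⟦X⟧} {K r R : ℝ} (hfg : f * g = 1) (hf : Bd (ge 2) f K)
    (hg : Bd (ge 2) g K) (hK : 1 ≤ K) (h1 : 4 / 5 ≤ r) (h3 : r < R) (h4 : R ≤ 5 / 4) {M : ℕ}
    (hM : 1 ≤ M) (hx : K * (r / R) ^ M ≤ 1) :
    ∃ (f' g' : ℂ⟦X⟧) (K' : ℝ), f' * g' = 1 ∧ Bd (ge 2) f' K' ∧ Bd (ge 2) g' K' ∧ 1 ≤ K' ∧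
      (∀ k < M, coeff k f' = coeff k f) ∧
      (∀ k ≤ M, coeff k ((TT g R M : ℂ⟦X⟧) * f' - 1) = 0) ∧
      Bd (ge r) ((TT g R M : ℂ⟦X⟧) * f' - 1) (6 * K ^ 2 * (r / R) ^ (2 * M)) ∧
      Bd (ge r) (f' - f) (2 * K ^ 2 * (r / R) ^ M) := by
  have hr0 : 0 < r := by linarith
  have hR0 : 0 < R := by linarith
  have h2 : (0 : ℝ) ≤ 2 := by norm_num
  set c : ℂ := ((R : ℂ)⁻¹) ^ M with hc
  set u : ℂ⟦X⟧ := monomial M c * f with hu
  have bu : ∀ ρ : ℝ, 0 ≤ ρ → ρ ≤ 2 → Bd (ge ρ) u (K * (ρ / R) ^ M) := by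
    intro ρ a b
    have h1 := bd_monomial (ge_nonneg a) M c
    have e : ‖c‖ * ge ρ M = (ρ / R) ^ M := by
      rw [hc, norm_pow, norm_inv, Complex.norm_real, Real.norm_of_nonneg hR0.le, ge, ← mul_pow,
        div_eq_inv_mul]
    rw [e] at h1
    rw [mul_comm]
    exact h1.mul a (hf.radius a b)
  obtain ⟨L, hL⟩ := exists_nat_gt (2 * (K * (2 / R) ^ M))
  have hL0 : (0 : ℝ) < L := lt_of_le_of_lt (by positivity) hL
  have hLn : 0 < L := by exact_mod_cast hL0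
  set v : ℂ⟦X⟧ := monomial 0 ((L : ℂ)⁻¹) * u with hv
  have hLv : (L : ℂ⟦X⟧) * v = u := by
    have : (L : ℂ) ≠ 0 := by exact_mod_cast hLn.ne'
    rw [hv, ← mul_assoc, monomial_zero_eq_C_apply, ← map_natCast (C : ℂ →+* ℂ⟦X⟧), ← map_mul,
      mul_inv_cancel₀ this, map_one, one_mul]
  have bv : ∀ ρ : ℝ, 0 ≤ ρ → ρ ≤ 2 → Bd (ge ρ) v (1 / (L : ℝ) * (K * (ρ / R) ^ M)) := by
    intro ρ a b
    have h1 := bd_monomial (ge_nonneg a) 0 ((L : ℂ)⁻¹)
    have e : ‖(L : ℂ)⁻¹‖ * ge ρ 0 = 1 / (L : ℝ) := by simp [ge]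
    rw [e] at h1
    exact h1.mul a (bu ρ a b)
  have bv2 : Bd (ge 2) v (1 / 2) := by
    refine (bv 2 h2 le_rfl).mono ?_
    rw [one_div, ← div_eq_inv_mul, div_le_iff₀ hL0]
    linarith
  have du : X ^ M ∣ u := by
    rw [hu, ← one_mul c, ← mul_one c, mul_comm c, ← mul_assoc, one_mul, one_mul]
    refine Dvd.dvd.mul_right ?_ _
    rw [X_pow_dvd_iff]
    intro m hm
    rw [coeff_monomial, if_neg hm.ne]
  have dv : X ^ M ∣ v := Dvd.dvd.mul_left du _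
  have cv : constantCoeff (1 + v) ≠ 0 := by
    have := X_pow_dvd_iff.1 dv 0 hM
    rw [map_add, map_one, ← coeff_zero_eq_constantCoeff_apply, this]
    simp
  have inv : (1 + v) * (1 + v)⁻¹ = 1 := PowerSeries.mul_inv_cancel _ cv
  set Rm : ℂ⟦X⟧ := (1 + v) ^ L - 1 - L * v with hRm
  have eL : (1 + v) ^ L = 1 + u + Rm := by rw [hRm, hLv]; ring
  set x := K * (r / R) ^ M with hxdef
  have hx0 : 0 ≤ x := by positivity
  have hr2 : r ≤ 2 := by linarith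
  have gr := ge_nonneg hr0.le
  have bR : Bd (ge r) Rm (x ^ 2) :=
    (bd_binom hr0.le (bv r hr0.le hr2) L).mono (binom_le hx0 hx hLn)
  have bur : Bd (ge r) u x := bu r hr0.le hr2
  have dM : (X : ℂ⟦X⟧) ^ (M + 1) ∣ (X ^ M) ^ 2 := by
    rw [← pow_mul]; exact pow_dvd_pow _ (by omega)
  have dR : X ^ (M + 1) ∣ Rm := (dM.trans (pow_dvd_pow_of_dvd dv 2)).trans (sq_dvd_binom v L)
  set tl : ℂ⟦X⟧ := g - (PowerSeries.trunc (M + 1) g : ℂ⟦X⟧) with htl
  have otl : ∀ k < M + 1, coeff k tl = 0 := by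
    intro k hk
    rw [htl, map_sub, Polynomial.coeff_coe, coeff_trunc, if_pos hk, sub_self]
  have eh : (TT g R M : ℂ⟦X⟧) * (f * (1 + v) ^ L) - 1 =
      -(u * u) + (1 - u) * Rm - tl * (f * (1 + u + Rm)) := by
    rw [coe_TT, eL, ← hc, htl]
    linear_combination (1 + u + Rm) * hfg + (1 + u + Rm) * hu
  have p2 : (1 : ℝ) ≤ 2 ^ L := one_le_pow₀ (by norm_num)
  refine ⟨f * (1 + v) ^ L, g * ((1 + v)⁻¹) ^ L, K * 2 ^ L, ?_, ?_, ?_, ?_, ?_, ?_, ?_, ?_⟩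
  · calc _ = (f * g) * ((1 + v) * (1 + v)⁻¹) ^ L := by rw [mul_pow]; ring
      _ = 1 := by rw [hfg, inv]; simp
  · exact hf.mul h2 (((((bd_one_ge h2).add (ge_nonneg h2) bv2)).mono (by norm_num)).pow h2 L)
  · exact hg.mul h2 ((bd_inv h2 bv2 inv).pow h2 L)
  · nlinarith
  · intro k hk
    have : X ^ M ∣ f * (1 + v) ^ L - f := by
      have e : f * (1 + v) ^ L - f = f * (u + Rm) := by rw [eL]; ring
      rw [e]
      exact Dvd.dvd.mul_left (dvd_add du ((pow_dvd_pow _ (Nat.le_succ M)).trans dR)) _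
    have := X_pow_dvd_iff.1 this k hk
    rwa [map_sub, sub_eq_zero] at this
  · intro k hk
    refine X_pow_dvd_iff.1 ?_ k (Nat.lt_succ_of_le hk)
    rw [eh]
    refine dvd_sub (dvd_add (dvd_neg.2 ?_) (Dvd.dvd.mul_left dR _))
      (Dvd.dvd.mul_right (X_pow_dvd_iff.2 otl) _)
    rw [← sq]
    exact dM.trans (pow_dvd_pow_of_dvd du 2)
  · rw [eh]
    have btl : Bd (ge r) tl ((r / 2) ^ (M + 1) * K) :=
      (hg.tail (ge_nonneg h2) (M + 1)).radius_order hr0.le (by norm_num) hr2 otl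
    have b1 := bd_one_ge hr0.le
    refine (((bur.mul hr0.le bur).neg.add gr ((b1.sub gr bur).mul hr0.le bR)).sub gr
      (btl.mul hr0.le ((hf.radius hr0.le hr2).mul hr0.le ((b1.add gr bur).add gr bR)))).mono ?_
    have a1 : (r / 2) ^ (M + 1) ≤ (r / R) ^ (2 * M) := by
      rw [pow_mul]
      refine le_trans (pow_le_pow_of_le_one (by positivity) (by linarith) (Nat.le_succ M)) ?_
      apply pow_le_pow_left₀ (by positivity)
      rw [div_pow, div_le_div_iff₀ (by norm_num) (by positivity)]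
      have : R ^ 2 ≤ 2 * r := by nlinarith
      nlinarith
    have a2 : x ^ 2 = K ^ 2 * (r / R) ^ (2 * M) := by rw [hxdef, mul_pow, ← pow_mul, mul_comm M 2]
    have a3 : 1 + x + x ^ 2 ≤ 3 := by nlinarith
    have a4 : (r / 2) ^ (M + 1) * K * (K * (1 + x + x ^ 2)) ≤ (r / R) ^ (2 * M) * K * (K * 3) := by
      gcongr
    have a5 : (1 + x) * x ^ 2 ≤ 2 * x ^ 2 := by nlinarith
    nlinarith
  · have e : f * (1 + v) ^ L - f = f * (u + Rm) := by rw [eL]; ring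
    rw [e]
    refine ((hf.radius hr0.le hr2).mul hr0.le (bur.add gr bR)).mono ?_
    have : x ^ 2 ≤ x := by nlinarith
    have : K * (x + x ^ 2) ≤ K * (2 * x) := by gcongr; linarith
    refine this.trans (le_of_eq ?_)
    rw [hxdef]; ring

/-- the state of the construction -/
structure St where
  f : ℂ⟦X⟧
  g : ℂ⟦X⟧
  K : ℝ
  N : ℕ
  w : ℕ → ℝ
  ε : ℝ
  hfg : f * g = 1
  hf : Bd (ge 2) f K
  hg : Bd (ge 2) g K
  hK : 1 ≤ K
  w0 : w 0 = 1
  wpos : ∀ k, 0 < w k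
  wanti : Antitone w
  hε : 0 < ε

/-- near-optimal approximants of some degree have zeros all around the circle of radius `R` -/
def Good (W : ℕ → ℝ) (F : ℂ⟦X⟧) (R δ ε : ℝ) : Prop :=
  ∃ (M : ℕ) (T : Polynomial ℂ) (η : ℝ), T.natDegree ≤ M ∧ Bd W ((T : ℂ⟦X⟧) * F - 1) η ∧ η ≤ ε ∧
    ∀ q : Polynomial ℂ, q.natDegree ≤ M → (∀ k, ‖coeff k ((q : ℂ⟦X⟧) * F - 1)‖ * W k ≤ η) →
      ∀ z : ℂ, ‖z‖ = R → ∃ a, q.eval a = 0 ∧ ‖z - a‖ < δ

/-- the relation between consecutive states -/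
def Rel (r R δ : ℝ) (s t : St) : Prop :=
  s.N < t.N ∧ (∀ k ≤ s.N, t.w k = s.w k) ∧ (∀ k, s.N ≤ k → r * t.w k ≤ t.w (k + 1)) ∧
    (∀ k ≤ s.N, coeff k t.f = coeff k s.f) ∧ t.ε ≤ s.ε / 2 ∧
    ∀ W : ℕ → ℝ, (∀ k, 0 ≤ W k) → Antitone W → (∀ k ≤ t.N, W k = t.w k) →
      Bd W (t.f - s.f) (s.ε / 2) ∧ ∀ F : ℂ⟦X⟧, (∀ k ≤ t.N, coeff k F = coeff k t.f) →
        Bd W (F - t.f) t.ε → Good W F R δ s.ε

lemma exists_s {r R δ : ℝ} (h0 : 0 < r) (h3 : r < R) (hδ : 0 < δ) :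
    ∃ s : ℝ, 0 < s ∧ s ≤ 1 / 2 ∧ s * R ^ 2 < δ ^ 2 ∧ r / R * (1 + s) ^ 2 < 1 := by
  have hR : 0 < R := by linarith
  have c1 : ContinuousAt (fun s : ℝ => s * R ^ 2) 0 := by fun_prop
  have c2 : ContinuousAt (fun s : ℝ => r / R * (1 + s) ^ 2) 0 := by fun_prop
  have e1 := Tendsto.eventually_lt_const (u := δ ^ 2) (by simpa using pow_pos hδ 2) c1
  have e2 := Tendsto.eventually_lt_const (u := 1) (by simpa using (div_lt_one hR).2 h3) c2
  have e3 : ∀ᶠ s : ℝ in 𝓝 0, s < 1 / 2 := eventually_lt_nhds (by norm_num)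
  have := ((e1.and (e2.and e3)).filter_mono (nhdsWithin_le_nhds (s := Set.Ioi 0))).and
    self_mem_nhdsWithin
  obtain ⟨s, ⟨a, b, c⟩, d⟩ := this.exists
  exact ⟨s, d, c.le, a, b⟩

lemma step (s : St) {r R δ : ℝ} (h1 : 4 / 5 ≤ r) (h2 : r ≤ 1) (h3 : r < R) (h4 : R ≤ 5 / 4)
    (hδ : 0 < δ) : ∃ t : St, Rel r R δ s t := by
  obtain ⟨f, g, K, N, w, ε, hfg, hf, hg, hK, w0, wpos, wanti, hε⟩ := s
  have hr0 : 0 < r := by linarith
  have hR0 : 0 < R := by linarith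
  have hq0 : 0 < r / R := by positivity
  have hq1 : r / R < 1 := (div_lt_one hR0).2 h3
  obtain ⟨σ, hs0, hs, hsδ, hlam⟩ := exists_s hr0 h3 hδ
  -- the new weight
  set w' : ℕ → ℝ := fun k => if k ≤ N then w k else w N * r ^ (k - N) with hw'
  have w'low : ∀ k, N ≤ k → w' k = w N * r ^ (k - N) := by
    intro k hk
    simp only [hw']
    split_ifs with h
    · have : k = N := by omega
      subst this; simp
    · rfl
  have w'eq : ∀ k ≤ N, w' k = w k := fun k hk => by simp only [hw', if_pos hk]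
  have w'step : ∀ k, N ≤ k → r * w' k = w' (k + 1) := by
    intro k hk
    rw [w'low k hk, w'low (k + 1) (by omega), show k + 1 - N = (k - N) + 1 by omega, pow_succ]
    ring
  have w'pos : ∀ k, 0 < w' k := by
    intro k
    simp only [hw']
    split_ifs
    · exact wpos k
    · have := wpos N
      positivity
  have w'anti : Antitone w' := by
    apply antitone_nat_of_succ_le
    intro k
    by_cases hk : N ≤ k
    · rw [← w'step k hk]
      have := w'pos k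
      nlinarith
    · rw [w'eq k (by omega), w'eq (k + 1) (by omega)]
      exact wanti (Nat.le_succ k)
  have wle : ∀ k, w k ≤ 1 := fun k => w0 ▸ wanti (Nat.zero_le k)
  set Cr : ℝ := (r⁻¹) ^ N with hCr
  have hCr0 : 0 < Cr := by positivity
  have w'up : ∀ k, w' k ≤ Cr * r ^ k := by
    intro k
    by_cases hk : N ≤ k
    · rw [w'low k hk]
      have e : Cr * r ^ k = r ^ (k - N) := by
        rw [hCr, inv_pow, pow_sub₀ _ hr0.ne' hk, mul_comm]
      rw [e]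
      have := wle N
      have : 0 < r ^ (k - N) := by positivity
      nlinarith
    · rw [w'eq k (by omega)]
      refine (wle k).trans ?_
      rw [hCr, inv_pow, ← div_eq_inv_mul, one_le_div (by positivity)]
      exact pow_le_pow_of_le_one hr0.le h2 (by omega)
  have w'lo : ∀ k, w N * r ^ k ≤ w' k := by
    intro k
    have hN := wpos N
    by_cases hk : N ≤ k
    · rw [w'low k hk]
      exact mul_le_mul_of_nonneg_left (pow_le_pow_of_le_one hr0.le h2 (by omega)) hN.le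
    · rw [w'eq k (by omega)]
      have := wanti (show k ≤ N by omega)
      have : r ^ k ≤ 1 := pow_le_one₀ hr0.le h2
      nlinarith
  set C₁ : ℝ := Cr * (6 * K ^ 2) + 2 with hC₁
  have hC₁0 : 0 < C₁ := by positivity
  -- choice of `M`
  have e1 := zero_near hfg hf hg hK hR0 h4 hδ hs0 hs hsδ
  have e2 := ev_pow hq0.le hq1 K zero_lt_one
  have e3 := ev_pow hq0.le hq1 (Cr * (2 * K ^ 2)) (by positivity : 0 < ε / 4)
  have e4 := ev_pow hq0.le hq1 C₁ hε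
  have e5 := ev_pow' (by positivity) hlam (C₁ / w N * (K + 1)) (by positivity : 0 < 1 / (8 * K))
  obtain ⟨M, hM1, hM2, hM3, hM4, hM5, hM6⟩ :=
    (e1.and (e2.and (e3.and (e4.and (e5.and (eventually_gt_atTop N)))))).exists
  obtain ⟨f', g', K', hfg', hf', hg', hK', hc1, hc2, hb1, hb2⟩ :=
    construct hfg hf hg hK h1 h3 h4 (M := M) (by omega) hM2.le
  have two : (0 : ℝ) ≤ 2 := by norm_num
  set T := TT g R M with hT
  set y := (r / R) ^ (2 * M) with hy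
  have hy0 : 0 < y := by positivity
  have bh2 : Bd (ge 2) ((T : ℂ⟦X⟧) * f' - 1) ((K + (2 / R) ^ M) * K' + 1) :=
    ((bd_TT hg hR0 two le_rfl M).mul two hf').sub (ge_nonneg two) (bd_one_ge two)
  have bd2 : Bd (ge 2) (f' - f) (K' + K) := hf'.sub (ge_nonneg two) hf
  have bT1 : Bd (ge 1) (T : ℂ⟦X⟧) (K + (1 / R) ^ M) :=
    bd_TT hg hR0 zero_le_one (by norm_num) M
  -- choice of `N'`
  have f1 := ev_pow (x := 1 / 2) (by norm_num) (by norm_num) ((K + (2 / R) ^ M) * K' + 1) hy0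
  have f2 := ev_pow (x := 1 / 2) (by norm_num) (by norm_num) (K' + K) (by positivity : 0 < ε / 4)
  obtain ⟨N', hN1, hN2, hN3⟩ := (f1.and (f2.and (eventually_ge_atTop M))).exists
  set B₁ := K + (1 / R) ^ M with hB₁
  have hB₁0 : 0 < B₁ := by positivity
  refine ⟨⟨f', g', K', N', w', min (ε / 2) (y / B₁), hfg', hf', hg', hK',
    by rw [w'eq 0 (Nat.zero_le _), w0], w'pos, w'anti, by positivity⟩, ?_, w'eq,
    fun k hk => (w'step k hk).le, fun k hk => hc1 k (by dsimp only at hk; omega),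
    min_le_left _ _, ?_⟩
  · dsimp only; omega
  intro W hW0 hWa hWe
  dsimp only at hWe ⊢
  have hW1 : ∀ k, W k ≤ 1 := fun k => by
    have := hWa (Nat.zero_le k)
    rwa [hWe 0 (Nat.zero_le _), w'eq 0 (Nat.zero_le _), w0] at this
  have hWup : ∀ k ≤ N', W k ≤ Cr * r ^ k := fun k hk => by rw [hWe k hk]; exact w'up k
  constructor
  · refine (Bd.split hr0.le hCr0.le hWup hW1 hb2 bd2).mono ?_
    linarith
  intro F hF hFb
  have hη : C₁ * y ≤ ε := by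
    have : y ≤ (r / R) ^ M := pow_le_pow_of_le_one hq0.le hq1.le (by omega)
    nlinarith
  refine ⟨M, T, C₁ * y, natDegree_TT _ _ _, ?_, hη, ?_⟩
  · have e : (T : ℂ⟦X⟧) * F - 1 = ((T : ℂ⟦X⟧) * f' - 1) + T * (F - f') := by ring
    rw [e]
    refine ((Bd.split hr0.le hCr0.le hWup hW1 hb1 bh2).add hW0
      (Bd.mul_anti hW0 hWa bT1 hFb)).mono ?_
    have : B₁ * min (ε / 2) (y / B₁) ≤ y := by
      refine (mul_le_mul_of_nonneg_left (min_le_right _ _) hB₁0.le).trans (le_of_eq ?_)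
      field_simp
    rw [hC₁]
    linarith
  intro q hq hqη
  apply hM1 q hq
  intro z hz
  have hρ : r ≤ R * (1 + σ) := by nlinarith
  have hTF : ∀ k ≤ M, coeff k ((T : ℂ⟦X⟧) * F - 1) = 0 := by
    intro k hk
    rw [← hc2 k hk, map_sub, map_sub, coeff_mul, coeff_mul]
    congr 1
    apply sum_congr rfl
    intro p hp
    rw [HasAntidiagonal.mem_antidiagonal] at hp
    rw [hF p.2 (by omega)]
  have hWlo : ∀ k ≤ M, w N * r ^ k ≤ W k := fun k hk => by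
    rw [hWe k (by omega)]; exact w'lo k
  have bT := bd_TT hg hR0 (ρ := R * (1 + σ)) (by positivity) (by nlinarith) M
  refine (err_bound (natDegree_TT _ _ _) hq hTF hWlo (wpos N) hr0 hρ hqη bT hz).trans
    (le_trans ?_ hM5.le)
  rw [mul_div_cancel_left₀ _ hR0.ne']
  have p1 : 1 ≤ (1 + σ) ^ M := one_le_pow₀ (by linarith)
  have p2 : K + (1 + σ) ^ M ≤ (K + 1) * (1 + σ) ^ M := by nlinarith
  have hN := wpos N
  have p3 : y * (R * (1 + σ) / r) ^ M * (1 + σ) ^ M = (r / R * (1 + σ) ^ 2) ^ M := by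
    rw [hy, pow_mul, ← mul_pow, ← mul_pow]
    congr 1
    field_simp
  calc _ ≤ ((M : ℝ) + 1) * (C₁ * y / w N * (R * (1 + σ) / r) ^ M) * ((K + 1) * (1 + σ) ^ M) := by
        gcongr
    _ = _ := by rw [← p3]; ring

end Pool.Agent.P.MP_48c50a_an
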