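import Pool.Agent.P.MP_48c50a_an.Basic

namespace Pool.Agent.P.MP_48c50a_an

open Finset PowerSeries Filter Topology

/-- the model polynomial `trunc g - (z/R)^M` -/
noncomputable def TT (g : ℂ⟦X⟧) (R : ℝ) (M : ℕ) : Polynomial ℂ :=
  PowerSeries.trunc (M + 1) g - Polynomial.monomial M (((R : ℂ)⁻¹) ^ M)

lemma ev_pow {x : ℝ} (h0 : 0 ≤ x) (h1 : x < 1) (C : ℝ) {ε : ℝ} (hε : 0 < ε) :
    ∀ᶠ M : ℕ in atTop, C * x ^ M < ε := by
  have := (tendsto_pow_atTop_nhds_zero_of_lt_one h0 h1).const_mul C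
  rw [mul_zero] at this
  exact this.eventually_lt_const hε

lemma ev_pow' {x : ℝ} (h0 : 0 ≤ x) (h1 : x < 1) (C : ℝ) {ε : ℝ} (hε : 0 < ε) :
    ∀ᶠ M : ℕ in atTop, C * (((M : ℝ) + 1) * x ^ M) < ε := by
  have := ((tendsto_self_mul_const_pow_of_lt_one h0 h1).add
    (tendsto_pow_atTop_nhds_zero_of_lt_one h0 h1)).const_mul C
  rw [add_zero, mul_zero] at this
  refine (this.eventually_lt_const hε).mono fun M hM => ?_
  have e : ((M : ℝ) + 1) * x ^ M = M * x ^ M + x ^ M := by ring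
  rw [e]; exact hM

lemma natDegree_TT (g : ℂ⟦X⟧) (R : ℝ) (M : ℕ) : (TT g R M).natDegree ≤ M := by
  unfold TT
  refine (Polynomial.natDegree_sub_le _ _).trans (max_le ?_ (Polynomial.natDegree_monomial_le _))
  have := natDegree_trunc_lt g M
  omega

lemma eval_TT (g : ℂ⟦X⟧) (R : ℝ) (M : ℕ) (y : ℂ) :
    (TT g R M).eval y = (PowerSeries.trunc (M + 1) g).eval y - (y / R) ^ M := by
  unfold TT
  rw [Polynomial.eval_sub, Polynomial.eval_monomial, ← mul_pow, div_eq_inv_mul]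

lemma coe_TT (g : ℂ⟦X⟧) (R : ℝ) (M : ℕ) :
    (TT g R M : ℂ⟦X⟧) = (PowerSeries.trunc (M + 1) g : ℂ⟦X⟧) - monomial M (((R : ℂ)⁻¹) ^ M) := by
  unfold TT
  rw [Polynomial.coe_sub, Polynomial.coe_monomial]

lemma bd_TT {g : ℂ⟦X⟧} {K R ρ : ℝ} (hg : Bd (ge 2) g K) (hR : 0 < R) (h0 : 0 ≤ ρ) (h2 : ρ ≤ 2)
    (M : ℕ) : Bd (ge ρ) (TT g R M : ℂ⟦X⟧) (K + (ρ / R) ^ M) := by
  rw [coe_TT]
  have h1 := bd_monomial (ge_nonneg h0) M (((R : ℂ)⁻¹) ^ M)
  have e : ‖((R : ℂ)⁻¹) ^ M‖ * ge ρ M = (ρ / R) ^ M := by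
    rw [norm_pow, norm_inv, Complex.norm_real, Real.norm_of_nonneg hR.le, ge, ← mul_pow,
      div_eq_inv_mul]
  rw [e] at h1
  exact ((hg.radius h0 h2).trunc (ge_nonneg h0) _).sub (ge_nonneg h0) h1

lemma trunc_lower {f g : ℂ⟦X⟧} {K : ℝ} (hfg : f * g = 1) (hf : Bd (ge 2) f K) (hg : Bd (ge 2) g K)
    (hK : 1 ≤ K) {M : ℕ} (hM : (K * K + 1) * (3 / 4) ^ M ≤ 1 / 2) {y : ℂ} (hy : ‖y‖ ≤ 3 / 2) :
    1 / (2 * K) ≤ ‖(PowerSeries.trunc (M + 1) g).eval y‖ := by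
  have h2 : (0 : ℝ) ≤ 2 := by norm_num
  set a := PowerSeries.trunc (M + 1) f with ha
  set b := PowerSeries.trunc (M + 1) g with hb
  have h1 : Bd (ge 2) ((a * b - 1 : Polynomial ℂ) : ℂ⟦X⟧) (K * K + 1) := by
    rw [Polynomial.coe_sub, Polynomial.coe_mul, Polynomial.coe_one]
    exact ((hf.trunc (ge_nonneg h2) _).mul h2 (hg.trunc (ge_nonneg h2) _)).sub (ge_nonneg h2)
      (bd_one_ge h2)
  have h3 : ∀ k < M, coeff k ((a * b - 1 : Polynomial ℂ) : ℂ⟦X⟧) = 0 := by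
    intro k hk
    rw [Polynomial.coe_sub, Polynomial.coe_mul, Polynomial.coe_one, map_sub, ← hfg, ha, hb,
      ← coeff_mul_eq_coeff_trunc_mul_trunc f g (by omega : k < M + 1), sub_self]
  have h4 := (h1.radius_order (σ := 3 / 2) (by norm_num) (by norm_num) (by norm_num) h3).eval_le hy
  have h5 : ‖a.eval y‖ ≤ K := (hf.trunc (ge_nonneg h2) (M + 1)).eval_le (by linarith)
  rw [Polynomial.eval_sub, Polynomial.eval_mul, Polynomial.eval_one] at h4
  have h6 : ‖a.eval y * b.eval y - 1‖ ≤ 1 / 2 := by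
    refine h4.trans (le_trans (le_of_eq ?_) hM)
    norm_num [mul_comm]
  have h7 : 1 / 2 ≤ ‖a.eval y * b.eval y‖ := by
    have := norm_sub_norm_le (1 : ℂ) (a.eval y * b.eval y)
    rw [norm_sub_rev, norm_one] at this
    linarith
  rw [norm_mul] at h7
  rw [div_le_iff₀ (by positivity)]
  have := mul_le_mul_of_nonneg_right h5 (norm_nonneg (b.eval y))
  linarith

lemma zero_near {f g : ℂ⟦X⟧} {K R δ s : ℝ} (hfg : f * g = 1) (hf : Bd (ge 2) f K)
    (hg : Bd (ge 2) g K) (hK : 1 ≤ K) (hR0 : 0 < R) (hR : R ≤ 5 / 4) (hδ : 0 < δ) (hs0 : 0 < s)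
    (hs : s ≤ 1 / 2) (hsδ : s * R ^ 2 < δ ^ 2) :
    ∀ᶠ M : ℕ in atTop, ∀ q : Polynomial ℂ, q.natDegree ≤ M →
      (∀ y : ℂ, ‖y‖ ≤ R * (1 + s) → ‖q.eval y - (TT g R M).eval y‖ ≤ 1 / (8 * K)) →
      ∀ z : ℂ, ‖z‖ = R → ∃ a, q.eval a = 0 ∧ ‖z - a‖ < δ := by
  set t := (s * R) ^ 2 / δ ^ 2 with ht
  have ht0 : 0 ≤ t := by positivity
  have hts : t < s := by
    rw [ht, div_lt_iff₀ (by positivity)]
    nlinarith
  have e1 := ev_pow (x := 3 / 4) (by norm_num) (by norm_num) (K * K + 1)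
    (by norm_num : (0 : ℝ) < 1 / 2)
  have e2 := ev_pow (x := 1 - s) (by linarith) (by linarith) 1
    (by positivity : (0 : ℝ) < 1 / (8 * K))
  have e3 := ev_pow (x := (1 + t) / (1 + s)) (by positivity)
    ((div_lt_one (by positivity)).2 (by linarith)) (4 * K * (K + 2) ^ 2 + K + 1) zero_lt_one
  filter_upwards [e1, e2, e3] with M h1 h2 h3 q hq herr z hz
  by_contra hcon
  push Not at hcon
  have key := three_point q hq (h := s * z) hδ hcon
  have hz0 : (R : ℂ) ≠ 0 := by exact_mod_cast hR0.ne'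
  have n0 : ‖(s : ℂ) * z‖ = s * R := by
    rw [norm_mul, hz, Complex.norm_real, Real.norm_of_nonneg hs0.le]
  have n1 : ‖z + s * z‖ = R * (1 + s) := by
    have : z + s * z = ((1 + s : ℝ) : ℂ) * z := by push_cast; ring
    rw [this, norm_mul, hz, Complex.norm_real, Real.norm_of_nonneg (by linarith)]; ring
  have n2 : ‖z - s * z‖ = R * (1 - s) := by
    have : z - s * z = ((1 - s : ℝ) : ℂ) * z := by push_cast; ring
    rw [this, norm_mul, hz, Complex.norm_real, Real.norm_of_nonneg (by linarith)]; ring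
  have np : ∀ y : ℂ, ‖(y / R) ^ M‖ = (‖y‖ / R) ^ M := by
    intro y
    rw [norm_pow, norm_div, Complex.norm_real, Real.norm_of_nonneg hR0.le]
  have up : ∀ y : ℂ, ‖y‖ ≤ 2 → ‖(PowerSeries.trunc (M + 1) g).eval y‖ ≤ K := fun y hy =>
    (hg.trunc (ge_nonneg (by norm_num)) (M + 1)).eval_le hy
  have hK8 : 1 / (8 * K) ≤ 1 := by
    rw [div_le_one (by positivity)]; linarith
  have hRs : 0 ≤ R * s := by positivity
  rw [n0, ← ht] at key
  -- value at `z`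
  have v0 : ‖q.eval z‖ ≤ K + 2 := by
    have a1 := herr z (by rw [hz]; linarith)
    have a2 := up z (by rw [hz]; linarith)
    have a3 := np z
    rw [hz, div_self hR0.ne', one_pow] at a3
    rw [eval_TT] at a1
    have a4 := norm_sub_norm_le (q.eval z) ((PowerSeries.trunc (M + 1) g).eval z - (z / R) ^ M)
    have a5 := norm_sub_le ((PowerSeries.trunc (M + 1) g).eval z) ((z / R) ^ M)
    linarith
  have v1 : (1 + s) ^ M - K - 1 ≤ ‖q.eval (z + s * z)‖ := by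
    have a1 := herr (z + s * z) n1.le
    have a2 := up (z + s * z) (by rw [n1]; nlinarith)
    have a3 := np (z + s * z)
    rw [n1, mul_div_cancel_left₀ _ hR0.ne'] at a3
    rw [eval_TT] at a1
    have a4 := norm_sub_norm_le ((PowerSeries.trunc (M + 1) g).eval (z + s * z) -
      ((z + s * z) / R) ^ M) (q.eval (z + s * z))
    have a5 := norm_sub_norm_le (((z + s * z) / R) ^ M)
      ((PowerSeries.trunc (M + 1) g).eval (z + s * z))
    rw [norm_sub_rev] at a5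
    rw [norm_sub_rev] at a1
    linarith
  have v2 : 1 / (4 * K) ≤ ‖q.eval (z - s * z)‖ := by
    have a1 := herr (z - s * z) (by rw [n2]; nlinarith)
    have a2 := trunc_lower hfg hf hg hK h1.le (y := z - s * z) (by rw [n2]; nlinarith)
    have a3 := np (z - s * z)
    rw [n2, mul_div_cancel_left₀ _ hR0.ne'] at a3
    rw [eval_TT] at a1
    have a4 := norm_sub_norm_le ((PowerSeries.trunc (M + 1) g).eval (z - s * z) -
      ((z - s * z) / R) ^ M) (q.eval (z - s * z))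
    have a5 := norm_sub_norm_le ((PowerSeries.trunc (M + 1) g).eval (z - s * z))
      (((z - s * z) / R) ^ M)
    rw [norm_sub_rev] at a1
    have a6 : 1 / (2 * K) - 1 / (8 * K) - 1 / (8 * K) = 1 / (4 * K) := by
      field_simp; ring
    linarith
  have p1 : 1 ≤ (1 + t) ^ M := one_le_pow₀ (by linarith)
  have p2 : (4 * K * (K + 2) ^ 2 + K + 1) * (1 + t) ^ M < (1 + s) ^ M := by
    rw [div_pow, ← mul_div_assoc, div_lt_one (by positivity)] at h3
    exact h3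
  have p3 : ‖q.eval z‖ ^ 2 ≤ (K + 2) ^ 2 := pow_le_pow_left₀ (norm_nonneg _) v0 2
  have p4 : ‖q.eval (z + s * z)‖ * (1 / (4 * K)) ≤ (1 + t) ^ M * (K + 2) ^ 2 :=
    (mul_le_mul_of_nonneg_left v2 (norm_nonneg _)).trans
      (key.trans (mul_le_mul_of_nonneg_left p3 (by positivity)))
  rw [mul_one_div, div_le_iff₀ (by positivity)] at p4
  nlinarith

lemma err_bound {F : ℂ⟦X⟧} {T q : Polynomial ℂ} {M : ℕ} {W : ℕ → ℝ} {η c r ρ B : ℝ}
    (hT : T.natDegree ≤ M) (hq : q.natDegree ≤ M)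
    (hTF : ∀ k ≤ M, coeff k ((T : ℂ⟦X⟧) * F - 1) = 0)
    (hW : ∀ k ≤ M, c * r ^ k ≤ W k) (hc : 0 < c) (hr : 0 < r) (hρ : r ≤ ρ)
    (hη : ∀ k, ‖coeff k ((q : ℂ⟦X⟧) * F - 1)‖ * W k ≤ η) (hB : Bd (ge ρ) (T : ℂ⟦X⟧) B) {y : ℂ}
    (hy : ‖y‖ ≤ ρ) :
    ‖q.eval y - T.eval y‖ ≤ ((M : ℝ) + 1) * (η / c * (ρ / r) ^ M) * B := by
  have hρ0 : 0 ≤ ρ := by linarith
  rw [← Polynomial.eval_sub]
  have hd : (q - T).natDegree < M + 1 := by
    have := (Polynomial.natDegree_sub_le q T).trans (max_le hq hT)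
    omega
  refine (norm_eval_le _ hd y).trans ?_
  have h1 : S (ge ‖y‖) (M + 1) ((q - T : Polynomial ℂ) : ℂ⟦X⟧) ≤
      S (ge ρ) (M + 1) (((q : ℂ⟦X⟧) * F - 1) * T) := by
    unfold S
    apply sum_le_sum
    intro k hk
    have hk' : k ≤ M := by simpa [Nat.lt_succ_iff] using hk
    have e : ((q : ℂ⟦X⟧) * F - 1) * T = (q - T : Polynomial ℂ) + q * ((T : ℂ⟦X⟧) * F - 1) := by
      rw [Polynomial.coe_sub]; ring
    have e2 : coeff k ((q : ℂ⟦X⟧) * ((T : ℂ⟦X⟧) * F - 1)) = 0 := by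
      rw [coeff_mul]
      apply sum_eq_zero
      intro p hp
      rw [HasAntidiagonal.mem_antidiagonal] at hp
      rw [hTF p.2 (by omega), mul_zero]
    rw [e, map_add, e2, add_zero]
    exact mul_le_mul_of_nonneg_left (pow_le_pow_left₀ (norm_nonneg _) hy k) (norm_nonneg _)
  refine h1.trans ((S_mul (ge_nonneg hρ0) (ge_nonneg hρ0) (ge_nonneg hρ0)
    (fun i j => by simp [ge, pow_add]) _ _ _).trans ?_)
  have hη0 : 0 ≤ η := by
    have := hW 0 (Nat.zero_le _)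
    refine le_trans (mul_nonneg (norm_nonneg _) ?_) (hη 0)
    have : 0 ≤ c * r ^ 0 := by positivity
    linarith
  refine mul_le_mul ?_ (hB _) (S_nonneg (ge_nonneg hρ0) _ _) (by positivity)
  unfold S
  have : ∀ k ∈ range (M + 1), ‖coeff k ((q : ℂ⟦X⟧) * F - 1)‖ * ge ρ k ≤ η / c * (ρ / r) ^ M := by
    intro k hk
    have hk' : k ≤ M := by simpa [Nat.lt_succ_iff] using hk
    have a1 : ‖coeff k ((q : ℂ⟦X⟧) * F - 1)‖ * (c * r ^ k) ≤ η :=
      (mul_le_mul_of_nonneg_left (hW k hk') (norm_nonneg _)).trans (hη k)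
    have a2 : ‖coeff k ((q : ℂ⟦X⟧) * F - 1)‖ ≤ η / (c * r ^ k) := by
      rw [le_div_iff₀ (by positivity)]; exact a1
    have a3 : (ρ / r) ^ k ≤ (ρ / r) ^ M := pow_le_pow_right₀ ((one_le_div hr).2 hρ) hk'
    calc _ ≤ η / (c * r ^ k) * ρ ^ k := mul_le_mul_of_nonneg_right a2 (pow_nonneg hρ0 k)
      _ = η / c * (ρ / r) ^ k := by rw [div_pow]; field_simp
      _ ≤ _ := mul_le_mul_of_nonneg_left a3 (by positivity)
  refine (sum_le_sum this).trans (le_of_eq ?_)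
  simp

end Pool.Agent.P.MP_48c50a_an
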